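import Pool.Agent.Q55.SD.Main

/-!
# Semisimplicity of Frobenius in the middle degree and the cycles on `X × X`

Let `X` be a smooth projective variety of even dimension `2 e` over an algebraic closure of the field
with `p` elements, for instance a surface (`e = 1`). Let `δ` be the difference of the order of the
pole of the zeta function of `X × X` at the integer `2 e` and of the rank of the cycles of codimension
`2 e` on `X × X` modulo numerical equivalence (`δ = 0` is the formula of Tate for `X × X`, which
implies that the Frobenius endomorphism is semisimple on the cohomology of `X`).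

Over all large finite fields, with `q` elements say:

1. If the Frobenius endomorphism `F` has a Jordan block of size at least two on `H^(2 e)(X)` for the
   eigenvalue `z` of multiplicity `m`, then `m ≥ 2` and `8 m - 10 ≤ δ` if `z ^ 2 ≠ q ^ (2 e)`, and
   `m ≥ 3` and `6 m - 10 ≤ δ`, or `m ≥ 4` and `8 m - 20 ≤ δ`, if `z ^ 2 = q ^ (2 e)`.
2. Suppose that the cycles of codimension `e` on `X` which are numerically equivalent to zero are
   homologically equivalent to zero (for `e = 1` this is a theorem of Matsusaka). Let `ρ` be the rank
   of the group of the cycles of codimension `e` on `X` modulo numerical equivalence. Then the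
   multiplicity of `q ^ e` on `H^(2 e)(X)` is `ρ + r` with `2 ρ r ≤ δ`; if `F` is not semisimple on
   the generalised eigenspace for `q ^ e`, then `r ≥ 3` and `6 r - 10 + 2 ρ r ≤ δ`, or `r ≥ 4` and
   `8 r - 20 + 2 ρ r ≤ δ`.

So (over every finite field)

3. if `δ ≤ 5` then `F` is semisimple on all `H^i(X)`;
4. if `δ < 6 ρ + 8` then `F` is semisimple on the generalised eigenspace for `q ^ e` in `H^(2 e)(X)`;
5. if `δ < 2 ρ` then the order of the pole of the zeta function of `X` at `e` is `ρ` (for surfaces:
   the Tate conjecture).

The proof: the correspondences of degree zero commute with `F`, and the trace form has on the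
operators given by them at most the rank `∑ c_j ^ 2`, `c_j` the numbers of the Jordan blocks of size
`j`. On the generalised eigenspace for `z`, `z ^ 2 = q ^ (2 e)`, the cup product is symmetric and
`F / z` is a unipotent isometry, so that `c_2` is even (the forms `(L ^ k x, y)`,
`L = F - q ^ (2 e) F⁻¹`, `k = 1, 3`, are alternating, so their ranks are even); this excludes a single
block of size two. The algebraic classes of codimension `e` split off from the generalised eigenspace
for `q ^ e`, and no correspondence of degree zero maps them to the complement or vice versa.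
-/

open CategoryTheory AlgebraicGeometry

universe u v

namespace Pool.Agent.Results.MP_1fe969_ag.DefectOfTheSquare

open Pool.Agent.H914 Pool.Agent.H914.VarClass Pool.Agent.H914.VarClass.Obj
  Pool.Agent.H914.WeilCohomology Pool.Agent.W534 Pool.Agent.TH132.P Pool.Agent.H447
  Pool.Agent.Q55.Gp Pool.Agent.Q55.SD

/-- **Semisimplicity of Frobenius in the middle degree and the defect of `X × X`.** -/
theorem result {k : Type u} [Field k] {𝒱 : VarClass k} {ops : CycleOps 𝒱}
    (W : WeilCohomology.{u, v} ops) [IsAlgClosed W.K] (p : ℕ) (hp : p.Prime) (Φ : FrobSystem W p)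
    (σ : W.K →+* ℂ) (hRH : ∀ Z : 𝒱.Obj, RiemannHyp Φ σ Z) (X : 𝒱.Obj) (e : ℕ)
    (he : X.dim = 2 * e) (δ : ℕ) (hδ : PoleDefect Φ σ (X.prod X) X.dim δ) :
    (∃ t, 0 < t ∧ ∀ s, 0 < s → t ∣ s → MiddleBound Φ X s e δ) ∧
    (δ ≤ 5 → ∀ i, Diagonalisable Φ X i) ∧
    (HomEqNumIn W X e →
      (∃ t, 0 < t ∧ ∀ s, 0 < s → t ∣ s → TateBound Φ X s e δ) ∧
      (δ < 6 * numRank ops X e + 8 →
        ∀ s, 0 < s → ¬ NotDiagonal Φ X s (2 * e) ((card Φ X s : W.K) ^ e)) ∧
      (δ < 2 * numRank ops X e → PoleDefect Φ σ X e 0)) :=
  main hp.one_lt hRH he hδ

end Pool.Agent.Results.MP_1fe969_ag.DefectOfTheSquare
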