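import Pool.Agent.Q45.GM.Mod

/-!
# Frobenius has distinct eigenvalues on the transcendental part of `H²` of the surfaces
`y ^ 2 = b(w ^ 2 - g(x))`

Let `k` be a field of characteristic different from `2`, `g` a monic polynomial of odd degree `n`
and `b` a polynomial of odd degree `d` over `k`, such that `b(-g(x))` is separable. The surface
`X : y ^ 2 = b(w ^ 2 - g(x))` is a double plane; it is fibred over the curve `C : s ^ 2 = b(t)` by
`t = w ^ 2 - g(x)`, and the generic fibre is the hyperelliptic curve `w ^ 2 = g(x) + t` over the function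
field `K` of `C`. Let `J` be the Jacobian of this curve, `k'` a separably closed extension of `k`,
`F = k' K`, `B` the integral closure of `k'[t]` in `F`, and `M` the `ℤ_2`-module of the classes of the
continuous cocycles of `Gal(Sep F / F)` with values in the Tate module `T_2 J` which are locally
trivial at all the maximal ideals of `B`. The automorphisms of the separable closure of `F` over `K`
which preserve `k'` act on `M`.

(1) `M` is a free module of finite rank `≤ d (n - 1)`. Let `φ` be the endomorphism of `M` defined by an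
automorphism which induces on `k'` an automorphism `τ` over `k` which permutes the roots of `b(-g(x))`
cyclically. The characteristic polynomial of `φ` modulo `2` divides `(X ^ (n d) - 1) / (X ^ d - 1)`;
so the eigenvalues of `φ` are distinct, even modulo `2`, `φ` is semisimple on `V = ℚ_2 ⊗ M`, and the
endomorphisms of `M` which commute with `φ` are the polynomials in `φ` over `ℤ_2`.

(2) If `k` is finite and `b(-g(x))` is irreducible over `k` then the conclusions hold for the Frobenius
`φ`.
-/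

set_option autoImplicit false
set_option linter.all false

open Polynomial IsDedekindDomain
open scoped Classical

namespace Pool.Agent.Results.MP_1fe969_ag.DistinctEigenvalues

open Pool.Agent.Y160.SL
open Pool.Agent.TH115.GD (rs ak Sep Comp)

/-- `K` is the function field of the curve `s ^ 2 = b(t)` over `k`. -/
structure IsFunctionField (k K : Type) [Field k] [Field K] [Algebra k[X] K] (b : k[X]) (s : K) :
    Prop where
  inj : Function.Injective (algebraMap k[X] K)
  sq : s ^ 2 = algebraMap k[X] K b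
  gen : Subfield.closure (Set.range (algebraMap k[X] K) ∪ {s}) = ⊤

/-- The field `F` is the extension `k' K` of `K` by the constants `k'`. -/
structure IsConstantExtension (k k' K F : Type) [Field k] [Field k'] [Algebra k k'] [Field K]
    [Algebra k[X] K] [Field F] [Algebra k'[X] F] [Algebra K F] : Prop where
  inj : Function.Injective (algebraMap k'[X] F)
  comp : ∀ p : k[X], algebraMap K F (algebraMap k[X] K p) =
    algebraMap k'[X] F (p.map (algebraMap k k'))
  gen : IntermediateField.adjoin K (Set.range ((algebraMap k'[X] F).comp C)) = ⊤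

/-- The polynomial `g(x) + t` over the field `K` which contains `k[t]`. -/
noncomputable def fPoly {k : Type} [Field k] (g : k[X]) (K : Type) [Field K] [Algebra k[X] K] : K[X] :=
  g.map ((algebraMap k[X] K).comp C) + C (algebraMap k[X] K X)

/-- The conditions on the polynomials `b` and `g` over `k`. -/
structure IsPair {k : Type} [Field k] (b g : k[X]) : Prop where
  two : (2 : k) ≠ 0
  monic : g.Monic
  odd : Odd g.natDegree
  oddBase : Odd b.natDegree
  separable : (b.comp (-g)).Separable

/-- The automorphism `τ` of `k'` permutes the roots of `h` cyclically. -/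
def IsCyclicOn {k k' : Type} [Field k] [Field k'] [Algebra k k'] (h : k[X]) (τ : k' ≃ₐ[k] k') : Prop :=
  ∃ r₀ : k', aeval r₀ h = 0 ∧ ∀ r : k', aeval r h = 0 → ∃ i : ℕ, r = τ^[i] r₀

section lin

variable {R M : Type} [CommRing R] [AddCommGroup M] [Module R M]

/-- Each stable submodule `U` of `M` has a stable complement `U'`, up to multiplication by a power of
`p`. -/
def IsSemisimpleUpTo (p : R) (φ : M →ₗ[R] M) : Prop :=
  ∀ U : Submodule R M, (∀ u ∈ U, φ u ∈ U) → ∃ U' : Submodule R M, (∀ u ∈ U', φ u ∈ U') ∧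
    U ⊓ U' = ⊥ ∧ ∃ r : ℕ, ∀ m : M, p ^ r • m ∈ U ⊔ U'

/-- Each endomorphism which commutes with `φ` is a polynomial in `φ`. -/
def CommutantIsPolynomials (φ : M →ₗ[R] M) : Prop :=
  ∀ ψ : M →ₗ[R] M, (∀ m, ψ (φ m) = φ (ψ m)) → ∃ P : R[X], ψ = aeval φ P

end lin

/-- The characteristic polynomial modulo `2`. -/
noncomputable def charpolyModTwo (M : Type) [AddCommGroup M] [Module ℤ_[2] M] [Module.Finite ℤ_[2] M]
    [Module.Free ℤ_[2] M] (φ : M →ₗ[ℤ_[2]] M) : (ZMod 2)[X] :=
  φ.charpoly.map (PadicInt.toZMod (p := 2))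

/-- The characteristic polynomial modulo `2` divides `(X ^ (n d) - 1) / (X ^ d - 1)`. -/
def DividesModTwo (M : Type) [AddCommGroup M] [Module ℤ_[2] M] [Module.Finite ℤ_[2] M]
    [Module.Free ℤ_[2] M] (φ : M →ₗ[ℤ_[2]] M) (n d : ℕ) : Prop :=
  charpolyModTwo M φ * (X ^ d - 1) ∣ X ^ (n * d) - 1

/-- The conclusions on an endomorphism `φ` of a free `ℤ_2`-module `M` of finite rank: the rank is at
most `d (n - 1)`; the eigenvalues are distinct, even modulo `2`, as the characteristic polynomial
modulo `2` divides `(X ^ (n d) - 1) / (X ^ d - 1)`; `φ` is semisimple on `ℚ_2 ⊗ M`; each endomorphism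
which commutes with `φ` is a polynomial in `φ`. -/
structure HasDistinctEigenvalues (M : Type) [AddCommGroup M] [Module ℤ_[2] M] [Module.Finite ℤ_[2] M]
    [Module.Free ℤ_[2] M] (φ : M →ₗ[ℤ_[2]] M) (n d : ℕ) : Prop where
  rank : Module.finrank ℤ_[2] M ≤ d * (n - 1)
  modTwo : DividesModTwo M φ n d
  separable : φ.charpoly.Separable
  semisimple : IsSemisimpleUpTo 2 φ
  commutant : CommutantIsPolynomials φ

section gen

variable {K F Ω : Type} [Field K] [Field F] [Field Ω] [Algebra K F] [Algebra F Ω] [Algebra K Ω]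
  [IsScalarTower K F Ω] (f : K[X])

/-- The sequences of cochains of `Gal(Ω / F)` with values in `J(Ω)`. -/
abbrev Cochain (F Ω : Type) [Field F] [Field Ω] [Algebra K Ω] [Algebra F Ω] (f : K[X]) : Type :=
  ℕ → (Ω ≃ₐ[F] Ω) → Jac 2 f Ω

/-- `c` is the coboundary of an element `R` of the Tate module `T_2 J`. -/
def IsTateCoboundary (c : Cochain F Ω f) : Prop :=
  ∃ R : ℕ → Jac 2 f Ω, IsTM 2 2 f R ∧ ∀ n, IsCobOf 2 f (c n) (R n)

/-- The map `κ` identifies with `M` the group of the classes of the cocycles with the property `P`: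
it is additive and surjective on these cocycles, and `κ c = 0` if and only if `c` is the coboundary of
an element of the Tate module. -/
structure IsClassMap (P : Cochain F Ω f → Prop) (M : Type) [AddCommGroup M]
    (κ : Cochain F Ω f → M) : Prop where
  surj : ∀ m, ∃ c, P c ∧ κ c = m
  add : ∀ c d, P c → P d → κ (c + d) = κ c + κ d
  zero : ∀ c, P c → (κ c = 0 ↔ IsTateCoboundary f c)

/-- `d` is the transform of the cochain `c` by the automorphism `T` of `Ω` over `K`:
`d (σ) = T (c (σ'))`, where `σ' = T⁻¹ σ T`. -/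
def IsTransform (T : Ω ≃ₐ[K] Ω) (c d : Cochain F Ω f) : Prop :=
  ∀ n (σ σ' : Ω ≃ₐ[F] Ω), (∀ x, T (σ' x) = σ (T x)) → d n σ = jm 2 f (ak T) (c n σ')

/-- The endomorphism `φ` of `M` is induced by the automorphism `T` of `Ω` over `K`. -/
def IsInduced (P : Cochain F Ω f → Prop) {M : Type} (κ : Cochain F Ω f → M) (T : Ω ≃ₐ[K] Ω)
    (φ : M → M) : Prop :=
  ∀ c d, P c → IsTransform f T c d → P d ∧ κ d = φ (κ c)

end gen

section sel

variable {K F : Type} [Field K] [Field F] [Algebra K F] (B : Type) [CommRing B] [IsDedekindDomain B]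
  [Algebra B F] [IsFractionRing B F] (f : K[X])

/-- The restriction of the cochain `c` to the completion of `F` at every maximal ideal of the Dedekind
domain `B` with field of fractions `F` is a coboundary. -/
def IsSelmer (c : (Sep F ≃ₐ[F] Sep F) → Jac 2 f (Sep F)) : Prop :=
  ∀ v : HeightOneSpectrum B, LocTriv 2 f (Comp B F v) (Sep (Comp B F v)) c

/-- `c` is a continuous cocycle of `Gal(Sep F / F)` with values in the Tate module `T_2 J` which is
locally trivial at all the maximal ideals of the Dedekind domain `B` with field of fractions `F`; its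
component with values in `J[2 ^ n]` is `c n`. -/
def IsSelmerCocycle (c : Cochain F (Sep F) f) : Prop :=
  IsTC 2 2 f c ∧ ∀ n, IsSelmer B f (c n)

/-- The module of the classes is free of finite rank, and each automorphism `T` of `Sep F` over `K` with
the property `P` induces an endomorphism with distinct eigenvalues. -/
def Concl (n d : ℕ) (P : (Sep F ≃ₐ[K] Sep F) → Prop) : Prop :=
  ∃ (M : Type) (_ : AddCommGroup M) (_ : Module ℤ_[2] M) (_ : Module.Finite ℤ_[2] M)
    (_ : Module.Free ℤ_[2] M) (κ : Cochain F (Sep F) f → M),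
    IsClassMap f (IsSelmerCocycle B f) M κ ∧ ∀ T : Sep F ≃ₐ[K] Sep F, P T →
      ∃ φ : M →ₗ[ℤ_[2]] M, IsInduced f (IsSelmerCocycle B f) κ T φ ∧ HasDistinctEigenvalues M φ n d

end sel

/-- (1) All fields: `T` acts on `k'` by `τ`, which permutes the roots of `b(-g(x))` cyclically. -/
def AllFields : Prop :=
  ∀ (k k' K F B : Type) [Field k] [Field k'] [Algebra k k'] [IsSepClosed k'] [Field K]
    [Algebra k[X] K] [Field F] [Algebra k'[X] F] [Algebra K F] [CommRing B] [IsDedekindDomain B]
    [Algebra k'[X] B] [Algebra B F] [IsScalarTower k'[X] B F] [IsFractionRing B F]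
    [IsIntegralClosure B k'[X] F] (b g : k[X]) (s : K), IsPair b g → IsFunctionField k K b s →
    IsConstantExtension k k' K F →
      Concl (F := F) B (fPoly g K) g.natDegree b.natDegree fun T =>
        ∃ τ : k' ≃ₐ[k] k', IsCyclicOn (b.comp (-g)) τ ∧
          ∀ x : k', T (algebraMap F (Sep F) (algebraMap k'[X] F (C x))) =
            algebraMap F (Sep F) (algebraMap k'[X] F (C (τ x)))

/-- (2) Finite fields: `T` acts on the algebraic closure `k'` of `k` by the Frobenius. -/
def FiniteFields : Prop :=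
  ∀ (k k' K F B : Type) [Field k] [Finite k] [Field k'] [Algebra k k'] [IsAlgClosure k k'] [Field K]
    [Algebra k[X] K] [Field F] [Algebra k'[X] F] [Algebra K F] [CommRing B] [IsDedekindDomain B]
    [Algebra k'[X] B] [Algebra B F] [IsScalarTower k'[X] B F] [IsFractionRing B F]
    [IsIntegralClosure B k'[X] F] (b g : k[X]) (s : K), IsPair b g → Irreducible (b.comp (-g)) →
    IsFunctionField k K b s → IsConstantExtension k k' K F →
      Concl (F := F) B (fPoly g K) g.natDegree b.natDegree fun T =>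
        ∀ x : k', T (algebraMap F (Sep F) (algebraMap k'[X] F (C x))) =
          algebraMap F (Sep F) (algebraMap k'[X] F (C (x ^ Nat.card k)))

open Pool.Agent.Q45.GM (IsHE fin_of SelT clsOf clsOf_surj clsOf_add clsOf_zero clsOf_tw exists_lift
  tw_of dist_of compl_of sel_isLocal)

section conv

variable {K F : Type} [Field K] [Field F] [Algebra K F] {B : Type} [CommRing B] [IsDedekindDomain B]
  [Algebra B F] [IsFractionRing B F] {f : K[X]}

theorem toTC {c : Cochain F (Sep F) f} (h : IsTC 2 2 f c) : Pool.Agent.Y160.SQ.IsTC 2 2 f c :=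
  ⟨fun n => ⟨(h.coc n).lc, (h.coc n).mul⟩, h.zero, h.step⟩

theorem ofTC {c : Cochain F (Sep F) f} (h : Pool.Agent.Y160.SQ.IsTC 2 2 f c) : IsTC 2 2 f c :=
  ⟨fun n => ⟨(h.coc n).lc, (h.coc n).mul⟩, h.zero, h.step⟩

theorem selIff {c : (Sep F ≃ₐ[F] Sep F) → Jac 2 f (Sep F)} :
    IsSelmer B f c ↔ Pool.Agent.Q45.GM.IsSelmer 2 B f c := Iff.rfl

/-- The classes of the cocycles. -/
theorem classMap : IsClassMap f (IsSelmerCocycle B f) (SelT (F := F) 2 B f 2) (clsOf B f) where
  surj m := by
    obtain ⟨c, ⟨h1, h2⟩, h3⟩ := clsOf_surj B f m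
    exact ⟨c, ⟨ofTC h1, h2⟩, h3⟩
  add c d hc hd := clsOf_add B f (toTC hc.1) hc.2 (toTC hd.1) hd.2
  zero c hc := by
    refine (clsOf_zero B f (toTC hc.1) hc.2).trans ⟨?_, ?_⟩
    · rintro ⟨R, hR, h⟩
      exact ⟨R, ⟨hR.zero, hR.step⟩, h⟩
    · rintro ⟨R, hR, h⟩
      exact ⟨R, ⟨hR.zero, hR.step⟩, h⟩

end conv

theorem allFields : AllFields := by
  intro k k' K F B _ _ _ _ _ _ _ _ _ _ _ _ _ _ _ _ b g s hp hK hF
  have hK' : IsHE k K b s := ⟨hK.inj, hK.sq, hK.gen⟩
  have hF' : Pool.Agent.Q45.TW.IsGeom k k' K F := ⟨hF.inj, hF.comp, hF.gen⟩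
  have h12 := fin_of (B := B) hp.two hp.monic hp.odd hp.oddBase.pos hp.separable hK' hF'
  haveI h1 : Module.Finite ℤ_[2] (SelT (F := F) 2 B (fPoly g K) 2) := h12.1
  haveI h2 : Module.Free ℤ_[2] (SelT (F := F) 2 B (fPoly g K) 2) := h12.2
  haveI h1' : Module.Finite ℤ_[2] (SelT (F := F) 2 B (Pool.Agent.Q45.TW.ff g K) 2) := h12.1
  haveI h2' : Module.Free ℤ_[2] (SelT (F := F) 2 B (Pool.Agent.Q45.TW.ff g K) 2) := h12.2
  refine ⟨SelT (F := F) 2 B (fPoly g K) 2, inferInstance, inferInstance, h1, h2,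
    clsOf B (fPoly g K), classMap, ?_⟩
  rintro T ⟨τ, ⟨r₀, hr₀, hcyc⟩, hT⟩
  obtain ⟨L, rfl, hL⟩ := exists_lift hF' (τ : k' ≃+* k') T hT
  have hTw := tw_of B hF' (fPoly g K) (τ : k' ≃+* k') L hL
  have h3 := dist_of B hp.two hp.monic hp.odd hp.oddBase hp.separable hK' hF' τ r₀ hr₀ hcyc L hL hTw
  refine ⟨Pool.Agent.Q45.GM.tw (p := 2) (sel_isLocal 2 B (fPoly g K)) hTw, ?_,
    ⟨h3.rank, h3.modTwo, h3.sepZ, fun U hU => compl_of _ h3.ss U hU, h3.commZ⟩⟩
  intro c d hc hd
  obtain ⟨⟨h4, h5⟩, h6⟩ := clsOf_tw B (fPoly g K) L hTw (toTC hc.1) hc.2 hd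
  exact ⟨⟨ofTC h4, h5⟩, h6⟩

theorem finiteFields : FiniteFields := by
  intro k k' K F B _ _ _ _ hk' _ _ _ _ _ _ _ _ _ _ _ _ b g s hp hirr hK hF
  haveI : IsAlgClosed k' := IsAlgClosure.isAlgClosed k
  haveI : Algebra.IsAlgebraic k k' := IsAlgClosure.isAlgebraic
  obtain ⟨M, i1, i2, i3, i4, κ, hκ, h3⟩ := allFields k k' K F B b g s hp hK hF
  refine ⟨M, i1, i2, i3, i4, κ, hκ, fun T hT => h3 T ?_⟩
  letI : Fintype k := Fintype.ofFinite k
  obtain ⟨ρ, -, hρ1, hρ2⟩ := Pool.Agent.Q45.GM.JFROB.main k k' (b.comp (-g)) hirr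
  have hN : 0 < (b.comp (-g)).natDegree := hirr.natDegree_pos
  haveI : NeZero (b.comp (-g)).natDegree := ⟨hN.ne'⟩
  let τ : k' ≃ₐ[k] k' := FiniteField.frobeniusAlgEquivOfAlgebraic k k'
  have hτ : ∀ x : k', τ x = x ^ Nat.card k := by
    intro x
    rw [Nat.card_eq_fintype_card]
    rfl
  have hit : ∀ i : ℕ, ρ (i : ZMod (b.comp (-g)).natDegree) = τ^[i] (ρ 0) := by
    intro i
    induction i with
    | zero => rw [Nat.cast_zero]; rfl
    | succ i ih => rw [Function.iterate_succ_apply', ← ih, hτ, Nat.cast_succ, hρ1]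
  refine ⟨τ, ⟨ρ 0, (hρ2 _).2 ⟨0, rfl⟩, fun r hr => ?_⟩, fun x => by rw [hT, hτ]⟩
  obtain ⟨i, rfl⟩ := (hρ2 r).1 hr
  refine ⟨i.val, ?_⟩
  rw [← hit, ZMod.natCast_zmod_val]

/-- (1) All fields. (2) Finite fields and the Frobenius. -/
theorem result : AllFields ∧ FiniteFields := ⟨allFields, finiteFields⟩

end Pool.Agent.Results.MP_1fe969_ag.DistinctEigenvalues
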