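import Pool.Agent.Q226.SCP.SemiMain

set_option autoImplicit false

/-!
# Semisimplicity of Frobenius on second cohomology and simply connected surfaces
-/

namespace Pool.Agent.Results.MP_1fe969_ag.SimplyConnectedSurfaces

open Pool.Agent.Q226.SCP

/-- Let `p` and `ℓ ≠ p` be prime numbers, and consider the varieties over the finite fields of
characteristic `p`.

1. Let `X` be a smooth projective geometrically connected variety of dimension at least `2` over
`𝔽_q`. There is a smooth projective geometrically simply connected surface `S` over a finite
extension of `𝔽_p` and an injective linear map `H²(X̄, ℚ_ℓ) → H²(S̄, ℚ_ℓ)` that commutes with the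
Frobenius of a common finite extension of the two finite fields.

2. The Frobenius acts semisimply on `H²(X̄, ℚ_ℓ)` for all smooth projective `X` if and only if it
does so for all geometrically simply connected surfaces.

3. The same holds for the semisimplicity of the eigenvalue `q` (the weaker form of the question). -/
theorem result (E : Type) [Field E] [CharZero E] (G : GeoP E) (F : H2Facts G) :
    (∀ X, G.Smooth X → 2 ≤ G.dim X → ∃ S, G.Surface S ∧ G.SC S ∧ G.Embeds X S) ∧
    ((∀ X, G.Smooth X → G.SS X) ↔ ∀ S, G.Surface S → G.SC S → G.SS S) ∧
    ((∀ X, G.Smooth X → G.SSq X) ↔ ∀ S, G.Surface S → G.SC S → G.SSq S) :=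
  ⟨F.embeds, F.ss_iff, F.ssq_iff⟩

end Pool.Agent.Results.MP_1fe969_ag.SimplyConnectedSurfaces
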