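import Pool.Agent.Q282.QF.Mul

/-!
# The multiplicities of the Frobenius eigenvalues of almost all complete intersections of large degree over a fixed finite field

Let `F` be a finite field with `q` elements and `W` the projective variety defined by a set `G` of homogeneous polynomials in the
`n + 1` variables `x_0, ..., x_n` over `F`. For a finite set `A` and numbers `d_a`, `a` in `A`, and a family `f` of homogeneous
polynomials `f_a` of degree `d_a` over `F` let `V_f` be the intersection of `W` with the hypersurfaces `f_a = 0`.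
-/

set_option autoImplicit false

namespace Pool.Agent.Results.MP_1fe969_ag.SurfacesOfLargeDegree

open Finset
open Q282QF (Fam Tr npts)

open Classical in
/-- There is a multiset `α` of at least `b` complex numbers of absolute value `R = q ^ (D / 2)` such that the numbers of points of
`V_f` over the extensions of `F` of degree `m` are given by the trace formula with the contribution `g(m)` of the other degrees, and
either an element of multiplicity more than `(1 + ε) #α / (K + 1)` in `α`, or a point `β` of absolute value `R` such that more than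
`4 (1 + ε) #α / (K + 1)` elements of `α` have a distance at most `R / (K + 1)` from `β`. -/
def HasCluster {F : Type} [Field F] [Fintype F] {n : ℕ} {A : Type} {d : A → ℕ} (G : Set (MvPolynomial (Fin (n + 1)) F)) (D : ℕ)
    (g : ℕ → ℝ) (f : Fam F n d) (K : ℕ) (ε b R : ℝ) : Prop :=
  ∃ α : Multiset ℂ, b ≤ Multiset.card α ∧ (∀ a ∈ α, ‖a‖ = R) ∧ Tr G D g f α ∧
    ∃ β : ℂ, (1 + ε) * Multiset.card α / (K + 1 : ℕ) < α.count β ∨
      (‖β‖ = R ∧ 4 * ((1 + ε) * Multiset.card α / (K + 1 : ℕ)) < Multiset.card (α.filter fun a => ‖a - β‖ ≤ R / (K + 1 : ℕ)))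

/-- **Main theorem.** Let `W` have at most `C₀ |E| ^ (D + #A)` points over every finite extension `E` of `F`, and let `g(m)` differ
from the number of points of `W` over the extension with `Q = q ^ m` elements divided by `Q ^ #A` by at most `C₀ Q ^ (D / 2)`. Let
`K ≥ 1`, `2 K ≤ d_a + 1` for all `a`, and `ε, b > 0`. Then the proportion of the families `f` such that `V_f` has a cluster of
eigenvalues is at most `25 C₀ ^ 2 (K + 1) ^ 3 / (ε b) ^ 2`. -/
theorem result {F : Type} [Field F] [Fintype F] {n : ℕ} {A : Type} [Fintype A] (d : A → ℕ)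
    (G : Set (MvPolynomial (Fin (n + 1)) F)) (hG : ∀ g ∈ G, ∃ k, g.IsHomogeneous k)
    (D : ℕ) (hD : 1 ≤ D) (C₀ : ℝ) (hC₀ : 1 ≤ C₀)
    (hW : ∀ (E : Type) [Field E] [Fintype E] [Algebra F E], (npts G E : ℝ) ≤ C₀ * (Fintype.card E : ℝ) ^ (D + Fintype.card A))
    (g : ℕ → ℝ) (hg : ∀ (E : Type) [Field E] [Fintype E] [Algebra F E],
      |g (Module.finrank F E) - npts G E / (Fintype.card E : ℝ) ^ Fintype.card A| ≤ C₀ * Real.sqrt (Fintype.card E) ^ D)
    (K : ℕ) (hK : 1 ≤ K) (hd : ∀ a, 2 * K ≤ d a + 1) (ε b : ℝ) (hε : 0 < ε) (hb : 0 < b) :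
    (Nat.card {f : Fam F n d // HasCluster G D g f K ε b (Real.sqrt (Fintype.card F) ^ D)} : ℝ) ≤
      25 * C₀ ^ 2 * (K + 1 : ℕ) ^ 3 / (ε * b) ^ 2 * Nat.card (Fam F n d) := by
  classical
  have h1 := Q282QF.main (F := F) (n := n) (A := A) (d := d) G hG D hD C₀ hC₀ hW g hg K hK hd ε b hε hb
  rw [Nat.card_eq_fintype_card, Nat.card_eq_fintype_card, Fintype.card_subtype]
  refine le_trans (Nat.cast_le.2 (card_le_card ?_)) h1
  intro f hf
  rw [mem_filter] at hf ⊢
  exact hf

end Pool.Agent.Results.MP_1fe969_ag.SurfacesOfLargeDegree
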